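import Pool.Agent.Y161.Cd.Defs
import Pool.Agent.Helper346.Cd.CC

set_option autoImplicit false

open MvPolynomial

namespace Pool.Agent.Y161.Cd

open Pool.Agent.Helper346.Cd



theorem vanish_prime_to_two {G : Type*} [Group G] [TopologicalSpace G] [IsTopologicalGroup G]
    [CompactSpace G] [TotallyDisconnectedSpace G]
    (hG : IsProTwo G)
    (M : Type*) [AddCommGroup M] [DistribMulAction G M] [Finite M] (h3 : ¬ 2 ∣ Nat.card M)
    (q : ℕ) : HSuccVanishes G M q := by
  apply vanish_of_average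
  intro U hU hUo
  obtain ⟨m, hm⟩ := hG U hU hUo
  have hidx : Nat.card (G ⧸ U) = 2 ^ m := by
    rw [← hm, Subgroup.index_eq_card]
  have hfin : Finite (G ⧸ U) := by
    apply Nat.finite_of_card_ne_zero
    rw [hidx]
    positivity
  have hcop : Nat.Coprime (2 ^ m) (Nat.card M) := by
    apply Nat.Coprime.pow_left
    exact (Nat.Prime.coprime_iff_not_dvd Nat.prime_two).2 h3
  have hbez := Nat.gcd_eq_gcd_ab (2 ^ m) (Nat.card M)
  rw [hcop] at hbez
  set u : ℤ := Nat.gcdA (2 ^ m) (Nat.card M) with hu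
  set v : ℤ := Nat.gcdB (2 ^ m) (Nat.card M) with hv
  refine ⟨fun _ => zsmulAddGroupHom u, ?_, ?_⟩
  · intro a
    have hft : Fintype (G ⧸ U) := Fintype.ofFinite _
    rw [finsum_eq_sum_of_fintype, Finset.sum_const, Finset.card_univ, ← Nat.card_eq_fintype_card,
      hidx]
    show (2 ^ m) • (u • a) = a
    have h0 : (Nat.card M) • a = 0 := card_nsmul_eq_zero'
    have h1 : (2 ^ m : ℕ) • (u • a) = (((2 ^ m : ℕ) : ℤ) * u) • a := by
      rw [mul_smul, natCast_zsmul]
    have h2 : (((2 ^ m : ℕ) : ℤ) * u) = 1 - v * ((Nat.card M : ℕ) : ℤ) := by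
      push_cast at hbez ⊢
      linarith
    rw [h1, h2, sub_smul, one_smul, mul_smul, natCast_zsmul, h0, smul_zero, sub_zero]
  · intro g t a
    show g • (u • a) = u • (g • a)
    exact smul_comm g u a

end Pool.Agent.Y161.Cd
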