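import Pool.Agent.Y161.Cd.Defs

set_option autoImplicit false

open MvPolynomial

namespace Pool.Agent.Y161.Cd

open Pool.Agent.Helper346.Cd



theorem exists_fixed_vector {G : Type*} [Group G] [TopologicalSpace G] [IsTopologicalGroup G]
    (hG : IsProTwo G)
    (M : Type*) [AddCommGroup M] [DistribMulAction G M] [Finite M] (hM : IsDiscreteModule G M)
    (h3 : 2 ∣ Nat.card M) : ∃ v : M, v ≠ 0 ∧ 2 • v = 0 ∧ ∀ g : G, g • v = v := by
  have : Fact (Nat.Prime 2) := ⟨by norm_num⟩
  set φ : G →* Equiv.Perm M := MulAction.toPermHom G M with hφ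
  have hopen : IsOpen (φ.ker : Set G) := by
    have h1 : (φ.ker : Set G) = ⋂ m : M, {g : G | g • m = m} := by
      ext g
      simp only [SetLike.mem_coe, MonoidHom.mem_ker, Set.mem_iInter, Set.mem_ofPred_eq]
      constructor
      · intro h m
        have : φ g m = (1 : Equiv.Perm M) m := by rw [h]
        exact this
      · intro h
        ext m
        exact h m
    rw [h1]
    exact isOpen_iInter_of_finite fun m => hM m
  obtain ⟨a, ha⟩ := hG φ.ker inferInstance hopen
  have hcard : Nat.card φ.range = 2 ^ a := by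
    rw [← ha, Subgroup.index_ker]
  have hP : IsPGroup 2 φ.range := IsPGroup.of_card hcard
  -- the 2-torsion
  let T : AddSubgroup M := (nsmulAddMonoidHom (α := M) 2).ker
  have hTmem : ∀ v : M, v ∈ T ↔ 2 • v = 0 := fun v => AddMonoidHom.mem_ker
  let S : SubMulAction φ.range M :=
    { carrier := {v | 2 • v = 0}
      smul_mem' := by
        rintro ⟨_, g, rfl⟩ v hv
        show 2 • (g • v) = 0
        have hv' : 2 • v = 0 := hv
        rw [← smul_comm g 2 v, hv', smul_zero] }
  have hScard : 2 ∣ Nat.card S := by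
    obtain ⟨x, hx⟩ := exists_prime_addOrderOf_dvd_card' 2 h3
    have hxT : x ∈ T := by
      rw [hTmem, ← hx]; exact addOrderOf_nsmul_eq_zero x
    have h4 : addOrderOf (⟨x, hxT⟩ : T) = 2 := by
      rw [← hx]; exact (AddSubgroup.addOrderOf_mk x hxT)
    have h5 : Nat.card T = Nat.card S :=
      Nat.card_congr (Equiv.subtypeEquivRight fun v => hTmem v)
    rw [← h5, ← h4]
    exact addOrderOf_dvd_natCard _
  let z : S := ⟨0, smul_zero _⟩
  have hz : z ∈ MulAction.fixedPoints φ.range S := by
    rintro ⟨_, g, rfl⟩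
    apply Subtype.ext
    show g • (0 : M) = 0
    exact smul_zero g
  obtain ⟨b, hb, hzb⟩ := hP.exists_fixed_point_of_prime_dvd_card_of_fixed_point S hScard hz
  refine ⟨b.1, fun h => hzb (Subtype.ext h.symm), b.2, fun g => ?_⟩
  have h6 := hb ⟨φ g, g, rfl⟩
  exact congrArg Subtype.val h6

end Pool.Agent.Y161.Cd
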