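import Pool.Agent.Y161.Cd.Defs
import Pool.Agent.Y161.Cd.CE
import Pool.Agent.Helper346.Cd.CF
import Pool.Agent.Y161.Cd.CG
import Pool.Agent.Y161.Cd.CH

set_option autoImplicit false

open MvPolynomial

namespace Pool.Agent.Y161.Cd

open Pool.Agent.Helper346.Cd



theorem vanish_finite_aux {k K : Type*} [Field k] [Field K] [Algebra k K] [IsGalois k K]
    [CharP k 2] [IsSepClosed K]
    (hG : IsProTwo Gal(K/k)) (q : ℕ) (hq : 1 ≤ q) (m : ℕ) :
    ∀ (M : Type) [AddCommGroup M] [DistribMulAction Gal(K/k) M] [Finite M]
    (_ : IsDiscreteModule Gal(K/k) M) (_ : Nat.card M = m),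
    HSuccVanishes Gal(K/k) M q := by
  induction m using Nat.strong_induction_on with
  | _ m ih =>
    intro M _ _ _ hM hm
    by_cases h3 : 2 ∣ Nat.card M
    · obtain ⟨v, hv0, hv3, hvfix⟩ := exists_fixed_vector hG M hM h3
      set N : AddSubgroup M := AddSubgroup.zmultiples v with hN
      have hNfix : ∀ (g : Gal(K/k)) (x : M), x ∈ N → g • x = x := by
        intro g x hx
        obtain ⟨z, rfl⟩ := AddSubgroup.mem_zmultiples_iff.mp hx
        rw [← DistribSMul.toAddMonoidHom_apply M g (z • v), map_zsmul,
          DistribSMul.toAddMonoidHom_apply, hvfix g]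
      have hcN : Nat.card N = 2 := by
        rw [hN, Nat.card_zmultiples]
        exact addOrderOf_eq_prime hv3 hv0
      have hcM : Nat.card M = Nat.card (M ⧸ N) * Nat.card N :=
        AddSubgroup.card_eq_card_quotient_mul_card_addSubgroup N
      have hQpos : 0 < Nat.card (M ⧸ N) := Nat.card_pos
      have hlt : Nat.card (M ⧸ N) < m := by
        rw [← hm, hcM, hcN]
        omega
      let actN : DistribMulAction Gal(K/k) N :=
        { smul := fun _ n => n
          one_smul := fun _ => rfl
          mul_smul := fun _ _ _ => rfl
          smul_zero := fun _ => rfl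
          smul_add := fun _ _ _ => rfl }
      have hle : ∀ g : Gal(K/k), N ≤ N.comap (DistribSMul.toAddMonoidHom M g) := by
        intro g x hx
        rw [AddSubgroup.mem_comap, DistribSMul.toAddMonoidHom_apply, hNfix g x hx]
        exact hx
      let actQ : DistribMulAction Gal(K/k) (M ⧸ N) :=
        { smul := fun g x => QuotientAddGroup.map N N (DistribSMul.toAddMonoidHom M g) (hle g) x
          one_smul := fun x => by
            induction x using QuotientAddGroup.induction_on with
            | H z => exact congrArg (QuotientAddGroup.mk (s := N)) (one_smul _ z)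
          mul_smul := fun g h x => by
            induction x using QuotientAddGroup.induction_on with
            | H z => exact congrArg (QuotientAddGroup.mk (s := N)) (mul_smul g h z)
          smul_zero := fun g => map_zero _
          smul_add := fun g x y => map_add _ x y }
      obtain ⟨e⟩ : Nonempty (N ≃+ ZMod 2) := by
        have e0 := zmodAddCyclicAddEquiv (inferInstance : IsAddCyclic N)
        rw [hcN] at e0
        exact ⟨e0.symm⟩
      have hA : HSuccVanishes Gal(K/k) N q :=
        vanish_trivial_two N (fun g n => rfl) e q hq
      have hQd : IsDiscreteModule Gal(K/k) (M ⧸ N) := by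
        intro x
        induction x using QuotientAddGroup.induction_on with
        | H z =>
          have h1 : IsOpen ((MulAction.stabilizer Gal(K/k) z : Subgroup Gal(K/k)) :
              Set Gal(K/k)) := hM z
          have h2 : MulAction.stabilizer Gal(K/k) z ≤
              MulAction.stabilizer Gal(K/k) (QuotientAddGroup.mk (s := N) z) := by
            intro g hg
            rw [MulAction.mem_stabilizer_iff] at hg ⊢
            exact congrArg (QuotientAddGroup.mk (s := N)) hg
          exact Subgroup.isOpen_mono h2 h1
      have hC : HSuccVanishes Gal(K/k) (M ⧸ N) q := ih _ hlt (M ⧸ N) hQd rfl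
      refine vanish_of_exact hM N.subtype (QuotientAddGroup.mk' N) N.subtype_injective
        (QuotientAddGroup.mk'_surjective N) ?_ ?_ ?_ q hA hC
      · intro b
        constructor
        · intro hb
          have : b ∈ N := (QuotientAddGroup.eq_zero_iff b).mp hb
          exact ⟨⟨b, this⟩, rfl⟩
        · rintro ⟨a, rfl⟩
          exact (QuotientAddGroup.eq_zero_iff _).mpr a.2
      · intro g a
        exact (hNfix g a a.2).symm
      · intro g b
        rfl
    · have : TotallyDisconnectedSpace Gal(K/k) := by
        infer_instance
      exact vanish_prime_to_two hG M h3 q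

theorem vanish_finite {k K : Type*} [Field k] [Field K] [Algebra k K] [IsGalois k K]
    [CharP k 2] [IsSepClosed K]
    (hG : IsProTwo Gal(K/k))
    (M : Type) [AddCommGroup M] [DistribMulAction Gal(K/k) M] [Finite M]
    (hM : IsDiscreteModule Gal(K/k) M) (q : ℕ) (hq : 1 ≤ q) :
    HSuccVanishes Gal(K/k) M q :=
  vanish_finite_aux hG q hq (Nat.card M) M hM rfl

end Pool.Agent.Y161.Cd
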