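import Pool.Agent.Y161.Cd.Defs

set_option autoImplicit false

open MvPolynomial

namespace Pool.Agent.Y161.Cd

open Pool.Agent.Helper346.Cd



theorem indep_cubes (n : ℕ)
    (y : Fin (n + 1) → FractionRing (MvPolynomial ℕ (ZMod 2)))
    (hy : ∑ i : Fin (n + 1), algebraMap (MvPolynomial ℕ (ZMod 2)) _ (X (i : ℕ)) * y i ^ 2 = 0) :
    y = 0 := by
  classical
  obtain ⟨b, hb⟩ := IsLocalization.exist_integer_multiples_of_finite
    (nonZeroDivisors (MvPolynomial ℕ (ZMod 2))) y
  choose w hw using hb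
  have hb0 : (b : MvPolynomial ℕ (ZMod 2)) ≠ 0 := nonZeroDivisors.coe_ne_zero b
  have hinj := IsFractionRing.injective (MvPolynomial ℕ (ZMod 2))
    (FractionRing (MvPolynomial ℕ (ZMod 2)))
  have hw' : ∀ i, algebraMap (MvPolynomial ℕ (ZMod 2)) (FractionRing (MvPolynomial ℕ (ZMod 2))) (w i)
      = algebraMap _ _ (b : MvPolynomial ℕ (ZMod 2)) * y i := by
    intro i
    rw [hw i, Algebra.smul_def]
  have h1 : ∑ i : Fin (n + 1), X (i : ℕ) * w i ^ 2 = (0 : MvPolynomial ℕ (ZMod 2)) := by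
    apply hinj
    rw [map_sum, map_zero]
    have e : ∀ i : Fin (n + 1), algebraMap (MvPolynomial ℕ (ZMod 2))
        (FractionRing (MvPolynomial ℕ (ZMod 2))) (X (i : ℕ) * w i ^ 2) =
        algebraMap _ _ (b : MvPolynomial ℕ (ZMod 2)) ^ 2 *
          (algebraMap (MvPolynomial ℕ (ZMod 2)) _ (X (i : ℕ)) * y i ^ 2) := by
      intro i
      rw [map_mul, map_pow, hw' i]; ring
    rw [Finset.sum_congr rfl (fun i _ => e i), ← Finset.mul_sum, hy, mul_zero]
  have h3 : (2 : MvPolynomial ℕ (ZMod 2)) = 0 := by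
    have : (C (2 : ZMod 2) : MvPolynomial ℕ (ZMod 2)) = 2 := by
      rw [map_ofNat]
    rw [← this]
    have h30 : (2 : ZMod 2) = 0 := by decide
    rw [h30, map_zero]
  have hwz : ∀ j : Fin (n + 1), w j = 0 := by
    intro j
    have h4 := congrArg (pderiv (j : ℕ)) h1
    rw [map_sum, map_zero] at h4
    have e : ∀ i : Fin (n + 1), pderiv (j : ℕ) (X (i : ℕ) * w i ^ 2) =
        if i = j then w j ^ 2 else (0 : MvPolynomial ℕ (ZMod 2)) := by
      intro i
      rw [Derivation.leibniz, Derivation.leibniz_pow]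
      have e1 : (2 : ℕ) • (w i ^ (2 - 1) • pderiv (j : ℕ) (w i)) = (0 : MvPolynomial ℕ (ZMod 2)) := by
        rw [nsmul_eq_mul]
        push_cast
        rw [h3, zero_mul]
      rw [e1, smul_zero, zero_add, pderiv_X]
      by_cases hij : i = j
      · rw [hij, if_pos rfl, Pi.single_eq_same, smul_eq_mul, mul_one]
      · rw [if_neg hij, Pi.single_eq_of_ne, smul_zero]
        intro hval
        exact hij (Fin.ext hval)
    rw [Finset.sum_congr rfl (fun i _ => e i), Finset.sum_ite_eq' Finset.univ j] at h4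
    simp only [Finset.mem_univ, if_true] at h4
    exact pow_eq_zero_iff (by norm_num) |>.mp h4
  funext j
  have h5 := hw' j
  rw [hwz j, map_zero] at h5
  have hb1 : algebraMap (MvPolynomial ℕ (ZMod 2)) (FractionRing (MvPolynomial ℕ (ZMod 2)))
      (b : MvPolynomial ℕ (ZMod 2)) ≠ 0 := by
    intro h6
    apply hb0
    apply hinj
    rw [h6, map_zero]
  rcases mul_eq_zero.mp h5.symm with h6 | h6
  · exact absurd h6 hb1
  · exact h6

end Pool.Agent.Y161.Cd
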