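import Pool.Agent.Y161.Cd.Defs

set_option autoImplicit false

open MvPolynomial

namespace Pool.Agent.Y161.Cd

open Pool.Agent.Helper346.Cd



theorem isProTwo_gal {k K : Type*} [Field k] [Field K] [Algebra k K] [IsGalois k K]
    (hk : ∀ (M : IntermediateField k K) [FiniteDimensional k M], ¬ 2 ∣ Module.finrank k M →
      Module.finrank k M = 1) :
    IsProTwo Gal(K/k) := by
  intro U hU hUo
  have : Fact (Nat.Prime 2) := ⟨by norm_num⟩
  have hUc : IsClosed (U : Set Gal(K/k)) := Subgroup.isClosed_of_isOpen U hUo
  let H : ClosedSubgroup Gal(K/k) := ⟨U, hUc⟩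
  have hfix : (IntermediateField.fixedField U).fixingSubgroup = U :=
    InfiniteGalois.fixingSubgroup_fixedField H
  have hfin : FiniteDimensional k (IntermediateField.fixedField U) ∧
      IsGalois k (IntermediateField.fixedField U) :=
    (InfiniteGalois.isOpen_and_normal_iff_finite_and_isGalois _).1 (by
      rw [hfix]
      exact ⟨hUo, hU⟩)
  have := hfin.1
  have := hfin.2
  have hHn : H.Normal := hU
  have hidx : U.index = Nat.card Gal(IntermediateField.fixedField U/k) :=
    Nat.card_congr (InfiniteGalois.normalAutEquivQuotient H).toEquiv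
  generalize hL : IntermediateField.fixedField U = L at *
  let P : Sylow 2 Gal(L/k) := default
  have h1 : Module.finrank (IntermediateField.fixedField (P : Subgroup Gal(L/k))) L =
      Nat.card (P : Subgroup Gal(L/k)) := IntermediateField.finrank_fixedField_eq_card _
  have h2 := Module.finrank_mul_finrank k (IntermediateField.fixedField (P : Subgroup Gal(L/k))) L
  have h3 : Nat.card Gal(L/k) = Module.finrank k L := IsGalois.card_aut_eq_finrank k L
  have h4 := (P : Subgroup Gal(L/k)).card_mul_index
  have hPpos : 0 < Nat.card (P : Subgroup Gal(L/k)) := Nat.card_pos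
  have h5 : Module.finrank k (IntermediateField.fixedField (P : Subgroup Gal(L/k))) =
      (P : Subgroup Gal(L/k)).index := by
    rw [h1, ← h3, ← h4, mul_comm] at h2
    exact Nat.eq_of_mul_eq_mul_left hPpos h2
  have h6 : ¬ 2 ∣ (P : Subgroup Gal(L/k)).index := P.not_dvd_index
  have h7 : Module.finrank k (IntermediateField.lift
      (IntermediateField.fixedField (P : Subgroup Gal(L/k)))) =
      Module.finrank k (IntermediateField.fixedField (P : Subgroup Gal(L/k))) :=
    (IntermediateField.liftAlgEquiv
      (IntermediateField.fixedField (P : Subgroup Gal(L/k)))).toLinearEquiv.finrank_eq.symm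
  have : FiniteDimensional k (IntermediateField.lift
      (IntermediateField.fixedField (P : Subgroup Gal(L/k)))) :=
    Module.Finite.equiv (IntermediateField.liftAlgEquiv
      (IntermediateField.fixedField (P : Subgroup Gal(L/k)))).toLinearEquiv
  have h8 := hk (IntermediateField.lift (IntermediateField.fixedField (P : Subgroup Gal(L/k))))
    (by rw [h7, h5]; exact h6)
  rw [h7, h5] at h8
  rw [h8, mul_one] at h4
  obtain ⟨m, hm⟩ := IsPGroup.iff_card.1 P.isPGroup'
  exact ⟨m, by rw [hidx, ← h4, hm]⟩

end Pool.Agent.Y161.Cd
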