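import Pool.Agent.Helper346.Cd.Defs

set_option autoImplicit false

open MvPolynomial

namespace Pool.Agent.Y161.Cd

open Pool.Agent.Helper346.Cd (IsDiscreteModule IsCochain diff HSuccVanishes CdLeOne)

/-- `H^i(G, M) = 0` for all `i > m` and all discrete torsion `G`-modules `M`. -/
def CdLe (G : Type) [Group G] [TopologicalSpace G] (m : ℕ) : Prop :=
  ∀ (M : Type) [AddCommGroup M] [DistribMulAction G M], IsDiscreteModule G M →
    (∀ a : M, IsOfFinAddOrder a) → ∀ q : ℕ, m ≤ q → HSuccVanishes G M q

/-- The cohomological dimension of the topological group `G` is `m`: the least `m` such that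
`H^i(G, M) = 0` for all `i > m` and all discrete torsion `G`-modules `M`. -/
def HasCd (G : Type) [Group G] [TopologicalSpace G] (m : ℕ) : Prop :=
  IsLeast {m : ℕ | CdLe G m} m

/-- Every open normal subgroup of `G` has index a power of `2`. -/
def IsProTwo (G : Type*) [Group G] [TopologicalSpace G] : Prop :=
  ∀ U : Subgroup G, U.Normal → IsOpen (U : Set G) → ∃ m : ℕ, U.index = 2 ^ m

/-- The intersection `f = g = 0` in `ℙ⁵` of the quadrics `f = 0` and `g = 0` over `k` is smooth of
dimension three: at every geometric point of it the Jacobian matrix of `f` and `g` has rank two. -/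
def IsSmoothIntersection {k : Type*} [Field k] (f g : MvPolynomial (Fin 6) k) : Prop :=
  ∀ x : Fin 6 → AlgebraicClosure k, x ≠ 0 → aeval x f = 0 → aeval x g = 0 →
    ∃ i j, aeval x (pderiv i f) * aeval x (pderiv j g) ≠ aeval x (pderiv j f) * aeval x (pderiv i g)

/-- the quadratic form `∑ aᵢ xᵢ² + c (x₀ x₁ + x₂ x₃ + x₄ x₅)` -/
noncomputable def formF {k : Type*} [Field k] (a : Fin 6 → k) (c : k) : MvPolynomial (Fin 6) k :=
  ∑ i, C (a i) * X i ^ 2 + C c * (X 0 * X 1 + X 2 * X 3 + X 4 * X 5)

/-- the quadratic form `x₀ x₁ + c x₂ x₃ + (1 + c) x₄ x₅` -/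
noncomputable def formG {k : Type*} [Field k] (c : k) : MvPolynomial (Fin 6) k :=
  X 0 * X 1 + C c * (X 2 * X 3) + C (1 + c) * (X 4 * X 5)

end Pool.Agent.Y161.Cd
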