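import Pool.Agent.Y161.Cd.Defs
import Pool.Agent.Helper346.Cd.CE

set_option autoImplicit false

namespace Pool.Agent.Y161.Cd

open Pool.Agent.Helper346.Cd

theorem not_cdLe_zero {k : Type} [Field k] [CharP k 2] (a b c : k) (ha : a ≠ 0) (hc : c ≠ 0)
    (h : ∀ t : k, a * t ^ 2 + c * t + b ≠ 0) : ¬ CdLe Gal(SeparableClosure k/k) 0 := by
  intro hcd
  have hK : CharP (SeparableClosure k) 2 :=
    charP_of_injective_algebraMap (algebraMap k (SeparableClosure k)).injective 2
  have hinj := (algebraMap k (SeparableClosure k)).injective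
  have h2 : (2 : SeparableClosure k) = 0 := by
    have := CharP.cast_eq_zero (SeparableClosure k) 2
    simpa using this
  have hc' : algebraMap k (SeparableClosure k) c ≠ 0 := by
    rw [Ne, map_eq_zero_iff _ hinj]
    exact hc
  have ha' : algebraMap k (SeparableClosure k) a ≠ 0 := by
    rw [Ne, map_eq_zero_iff _ hinj]
    exact ha
  obtain ⟨α, hα⟩ := IsSepClosed.exists_root_C_mul_X_pow_add_C_mul_X_add_C'
    (k := SeparableClosure k) 2 2 (algebraMap k _ a) (algebraMap k _ c) (algebraMap k _ b)
    (dvd_refl 2) (le_refl 2) hc'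
  set δ : SeparableClosure k := algebraMap k _ (c / a) with hδ
  have hδ0 : δ ≠ 0 := by
    rw [hδ, Ne, map_eq_zero_iff _ hinj]
    exact div_ne_zero hc ha
  have haδ : algebraMap k (SeparableClosure k) a * δ = algebraMap k _ c := by
    rw [hδ, ← map_mul]
    congr 1
    field_simp
  have hroot : ∀ σ : Gal(SeparableClosure k/k), ∃ n : ZMod 2,
      σ • α = α + ZMod.castHom (dvd_refl 2) (SeparableClosure k) n * δ := by
    intro σ
    have h1 : algebraMap k (SeparableClosure k) a * (σ • α) ^ 2 + algebraMap k _ c * (σ • α) +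
        algebraMap k _ b = 0 := by
      have := congrArg (fun z => σ z) hα
      simp only [map_add, map_mul, map_pow, map_zero, AlgEquiv.commutes] at this
      exact this
    have h3 : (σ • α - α) * (algebraMap k (SeparableClosure k) a * (σ • α - α - δ)) = 0 := by
      rw [mul_sub, haδ]
      linear_combination h1 - hα - (algebraMap k (SeparableClosure k) a * α * (σ • α - α) +
        algebraMap k (SeparableClosure k) c * (σ • α - α)) * h2
    rcases mul_eq_zero.1 h3 with h4 | h4
    · refine ⟨0, ?_⟩
      rw [map_zero, zero_mul, add_zero]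
      exact sub_eq_zero.1 h4
    · refine ⟨1, ?_⟩
      rw [map_one, one_mul]
      have h5 := (mul_eq_zero.1 h4).resolve_left ha'
      linear_combination h5
  choose φ hφ using hroot
  have hcinj : Function.Injective (ZMod.castHom (dvd_refl 2) (SeparableClosure k)) :=
    (ZMod.castHom (dvd_refl 2) (SeparableClosure k)).injective
  have hφinj : ∀ n m : ZMod 2, ZMod.castHom (dvd_refl 2) (SeparableClosure k) n * δ =
      ZMod.castHom (dvd_refl 2) (SeparableClosure k) m * δ → n = m :=
    fun n m h => hcinj (mul_right_cancel₀ hδ0 h)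
  have hfix : ∀ (σ : Gal(SeparableClosure k/k)) (n : ZMod 2),
      σ • (ZMod.castHom (dvd_refl 2) (SeparableClosure k) n * δ) =
      ZMod.castHom (dvd_refl 2) (SeparableClosure k) n * δ := by
    intro σ n
    rw [AlgEquiv.smul_def, map_mul, hδ, AlgEquiv.commutes]
    congr 1
    have : (((σ : SeparableClosure k →+* SeparableClosure k)).comp
      (ZMod.castHom (dvd_refl 2) (SeparableClosure k))) = ZMod.castHom (dvd_refl 2) _ :=
      Subsingleton.elim _ _
    exact congrArg (fun ψ : ZMod 2 →+* SeparableClosure k => ψ n) this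
  have hhom : ∀ σ τ : Gal(SeparableClosure k/k), φ (σ * τ) = φ σ + φ τ := by
    intro σ τ
    apply hφinj
    have h1 := hφ (σ * τ)
    rw [mul_smul, hφ τ, smul_add, hfix, hφ σ] at h1
    rw [map_add, add_mul]
    linear_combination -h1
  have hφ1 : φ 1 = 0 := by
    have := hhom 1 1
    rw [mul_one] at this
    exact left_eq_add.1 this
  have hlc : IsLocallyConstant φ := by
    rw [IsLocallyConstant.iff_eventually_eq]
    intro σ
    have h1 := stabilizer_isOpen_of_isIntegral (K := k) (L := SeparableClosure k) α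
    have h2 : Continuous (fun τ : Gal(SeparableClosure k/k) => σ⁻¹ * τ) := by fun_prop
    have h3 := (h1.preimage h2).mem_nhds (x := σ) (by simp)
    filter_upwards [h3] with τ hτ
    have h4 : (σ⁻¹ * τ) • α = α := hτ
    rw [mul_smul, inv_smul_eq_iff] at h4
    apply hφinj
    have h5 := hφ τ
    rw [h4, hφ σ] at h5
    exact (add_left_cancel h5).symm
  let act : DistribMulAction Gal(SeparableClosure k/k) (ZMod 2) :=
    { smul := fun _ n => n
      one_smul := fun _ => rfl
      mul_smul := fun _ _ _ => rfl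
      smul_zero := fun _ => rfl
      smul_add := fun _ _ _ => rfl }
  have hdisc : IsDiscreteModule Gal(SeparableClosure k/k) (ZMod 2) := by
    intro m
    have : {g : Gal(SeparableClosure k/k) | g • m = m} = Set.univ := Set.eq_univ_of_forall fun g => rfl
    rw [this]
    exact isOpen_univ
  have hvan := hcd (ZMod 2) hdisc (fun m => isOfFinAddOrder_of_finite m) 0 (le_refl 0)
  obtain ⟨g, hg, hgd⟩ := hvan (fun x => φ (x 1) - φ (x 0)) ⟨by
      have e1 : IsLocallyConstant (fun x : Fin 2 → Gal(SeparableClosure k/k) => φ (x 1)) :=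
        hlc.comp_continuous (continuous_apply 1)
      have e0 : IsLocallyConstant (fun x : Fin 2 → Gal(SeparableClosure k/k) => φ (x 0)) :=
        hlc.comp_continuous (continuous_apply 0)
      exact e1.sub e0, by
      intro γ x
      show φ (γ * x 1) - φ (γ * x 0) = φ (x 1) - φ (x 0)
      rw [hhom, hhom]
      ring⟩ (by
      funext x
      show (∑ j : Fin 3, (-1 : ℤ) ^ (j : ℕ) • (φ (x (j.succAbove 1)) - φ (x (j.succAbove 0)))) = 0
      rw [Fin.sum_univ_three]
      show (-1 : ℤ) ^ 0 • (φ (x 2) - φ (x 1)) + (-1 : ℤ) ^ 1 • (φ (x 2) - φ (x 0)) +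
        (-1 : ℤ) ^ 2 • (φ (x 1) - φ (x 0)) = 0
      rw [pow_zero, pow_one, one_smul, neg_smul, one_smul, neg_one_sq, one_smul]
      ring)
  have hconst : ∀ σ τ : Gal(SeparableClosure k/k), g (fun _ => σ) = g (fun _ => τ) := by
    intro σ τ
    have := hg.2 (σ * τ⁻¹) (fun _ => τ)
    simp only [inv_mul_cancel_right] at this
    exact this
  have hzero : ∀ σ : Gal(SeparableClosure k/k), φ σ = 0 := by
    intro σ
    have h1 := congrFun hgd (![1, σ] : Fin 2 → Gal(SeparableClosure k/k))
    unfold diff at h1
    rw [Fin.sum_univ_two] at h1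
    have h3 : (fun i : Fin 1 => (![1, σ] : Fin 2 → Gal(SeparableClosure k/k)) ((0 : Fin 2).succAbove i)) =
        fun _ => σ := by
      funext i
      fin_cases i
      rfl
    have h4 : (fun i : Fin 1 => (![1, σ] : Fin 2 → Gal(SeparableClosure k/k)) ((1 : Fin 2).succAbove i)) =
        fun _ => 1 := by
      funext i
      fin_cases i
      rfl
    rw [h3, h4, hconst σ 1] at h1
    have h5 : (![1, σ] : Fin 2 → Gal(SeparableClosure k/k)) 1 = σ := rfl
    have h6 : (![1, σ] : Fin 2 → Gal(SeparableClosure k/k)) 0 = 1 := rfl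
    simp only [h5, h6, hφ1] at h1
    rw [sub_zero] at h1
    rw [← h1]
    show (-1 : ℤ) ^ 0 • g (fun _ => 1) + (-1 : ℤ) ^ 1 • g (fun _ => 1) = 0
    rw [pow_zero, pow_one, one_smul, neg_smul, one_smul, add_neg_cancel]
  have hαfix : ∀ σ : Gal(SeparableClosure k/k), σ α = α := by
    intro σ
    have := hφ σ
    rw [hzero σ, map_zero, zero_mul, add_zero] at this
    exact this
  obtain ⟨t, ht⟩ := (InfiniteGalois.mem_range_algebraMap_iff_fixed (k := k) α).2 hαfix
  apply h t
  apply hinj
  rw [map_add, map_add, map_mul, map_mul, map_pow, map_zero, ht]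
  exact hα

end Pool.Agent.Y161.Cd
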