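import Pool.Agent.Y161.Cd.Defs

set_option autoImplicit false

open MvPolynomial

namespace Pool.Agent.Y161.Cd

theorem formF_homogeneous {k : Type*} [Field k] (a : Fin 6 → k) (c : k) :
    (formF a c).IsHomogeneous 2 := by
  unfold formF
  apply IsHomogeneous.add
  · apply IsHomogeneous.sum
    intro i _
    have h1 := (isHomogeneous_C (Fin 6) (a i)).mul ((isHomogeneous_X k i).pow 2)
    simpa using h1
  · have h2 : (X 0 * X 1 + X 2 * X 3 + X 4 * X 5 : MvPolynomial (Fin 6) k).IsHomogeneous 2 :=
      (((isHomogeneous_X k 0).mul (isHomogeneous_X k 1)).add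
        ((isHomogeneous_X k 2).mul (isHomogeneous_X k 3))).add
        ((isHomogeneous_X k 4).mul (isHomogeneous_X k 5))
    have h3 := (isHomogeneous_C (Fin 6) c).mul h2
    simpa using h3

theorem formG_homogeneous {k : Type*} [Field k] (c : k) : (formG c).IsHomogeneous 2 := by
  unfold formG
  have h1 : (X 0 * X 1 : MvPolynomial (Fin 6) k).IsHomogeneous 2 :=
    (isHomogeneous_X k 0).mul (isHomogeneous_X k 1)
  have h2 : (X 2 * X 3 : MvPolynomial (Fin 6) k).IsHomogeneous 2 :=
    (isHomogeneous_X k 2).mul (isHomogeneous_X k 3)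
  have h3 : (X 4 * X 5 : MvPolynomial (Fin 6) k).IsHomogeneous 2 :=
    (isHomogeneous_X k 4).mul (isHomogeneous_X k 5)
  have h4 := (isHomogeneous_C (Fin 6) c).mul h2
  have h5 := (isHomogeneous_C (Fin 6) (1 + c)).mul h3
  rw [zero_add] at h4 h5
  exact (h1.add h4).add h5

theorem aeval_formF {k A : Type*} [Field k] [CommRing A] [Algebra k A] (a : Fin 6 → k) (c : k)
    (x : Fin 6 → A) : aeval x (formF a c) = ∑ i, algebraMap k A (a i) * x i ^ 2 +
      algebraMap k A c * (x 0 * x 1 + x 2 * x 3 + x 4 * x 5) := by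
  simp [formF]

theorem aeval_formG {k A : Type*} [Field k] [CommRing A] [Algebra k A] (c : k)
    (x : Fin 6 → A) : aeval x (formG c) = x 0 * x 1 + algebraMap k A c * (x 2 * x 3) +
      (1 + algebraMap k A c) * (x 4 * x 5) := by
  simp [formG]

theorem smooth {k : Type*} [Field k] [CharP k 2] (a : Fin 6 → k) (c : k) (ha : ∀ i, a i ≠ 0)
    (hc0 : c ≠ 0) (hc1 : 1 + c ≠ 0) : IsSmoothIntersection (formF a c) (formG c) := by
  intro x hx0 hF hG
  by_contra hcon
  push Not at hcon
  have : CharP (AlgebraicClosure k) 2 :=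
    charP_of_injective_algebraMap (algebraMap k (AlgebraicClosure k)).injective 2
  have h2 : (2 : AlgebraicClosure k) = 0 := by
    have := CharP.cast_eq_zero (AlgebraicClosure k) 2
    simpa using this
  rw [aeval_formF] at hF
  rw [aeval_formG] at hG
  obtain ⟨C', hC'⟩ : ∃ C', algebraMap k (AlgebraicClosure k) c = C' := ⟨_, rfl⟩
  obtain ⟨A, hA⟩ : ∃ A : Fin 6 → AlgebraicClosure k, ∀ i, algebraMap k (AlgebraicClosure k) (a i) = A i :=
    ⟨_, fun i => rfl⟩
  have hC0 : C' ≠ 0 := by
    rw [← hC']
    simpa using hc0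
  have hC1 : 1 + C' ≠ 0 := by
    rw [← hC']
    intro h
    apply hc1
    apply (algebraMap k (AlgebraicClosure k)).injective
    rw [map_add, map_one, map_zero]
    exact h
  have hAn : ∀ i, A i ≠ 0 := by
    intro i
    rw [← hA]
    simpa using ha i
  have f0 : aeval x (pderiv 0 (formF a c)) = C' * x 1 := by
    simp [formF, Fin.sum_univ_six, pderiv_X, Pi.single_apply, Derivation.leibniz,
      Derivation.leibniz_pow, pderiv_C, h2, hC', hA]
  have f1 : aeval x (pderiv 1 (formF a c)) = C' * x 0 := by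
    simp [formF, Fin.sum_univ_six, pderiv_X, Pi.single_apply, Derivation.leibniz,
      Derivation.leibniz_pow, pderiv_C, h2, hC', hA]
  have f2 : aeval x (pderiv 2 (formF a c)) = C' * x 3 := by
    simp [formF, Fin.sum_univ_six, pderiv_X, Pi.single_apply, Derivation.leibniz,
      Derivation.leibniz_pow, pderiv_C, h2, hC', hA]
  have f3 : aeval x (pderiv 3 (formF a c)) = C' * x 2 := by
    simp [formF, Fin.sum_univ_six, pderiv_X, Pi.single_apply, Derivation.leibniz,
      Derivation.leibniz_pow, pderiv_C, h2, hC', hA]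
  have f4 : aeval x (pderiv 4 (formF a c)) = C' * x 5 := by
    simp [formF, Fin.sum_univ_six, pderiv_X, Pi.single_apply, Derivation.leibniz,
      Derivation.leibniz_pow, pderiv_C, h2, hC', hA]
  have f5 : aeval x (pderiv 5 (formF a c)) = C' * x 4 := by
    simp [formF, Fin.sum_univ_six, pderiv_X, Pi.single_apply, Derivation.leibniz,
      Derivation.leibniz_pow, pderiv_C, h2, hC', hA]
  have g0 : aeval x (pderiv 0 (formG c)) = x 1 := by
    simp [formG, pderiv_X, Pi.single_apply, Derivation.leibniz, pderiv_C]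
  have g1 : aeval x (pderiv 1 (formG c)) = x 0 := by
    simp [formG, pderiv_X, Pi.single_apply, Derivation.leibniz, pderiv_C]
  have g2 : aeval x (pderiv 2 (formG c)) = C' * x 3 := by
    simp [formG, pderiv_X, Pi.single_apply, Derivation.leibniz, pderiv_C, hC']
  have g3 : aeval x (pderiv 3 (formG c)) = C' * x 2 := by
    simp [formG, pderiv_X, Pi.single_apply, Derivation.leibniz, pderiv_C, hC']
  have g4 : aeval x (pderiv 4 (formG c)) = (1 + C') * x 5 := by
    simp [formG, pderiv_X, Pi.single_apply, Derivation.leibniz, pderiv_C, hC']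
  have g5 : aeval x (pderiv 5 (formG c)) = (1 + C') * x 4 := by
    simp [formG, pderiv_X, Pi.single_apply, Derivation.leibniz, pderiv_C, hC']
  have hsum := hF
  simp only [Fin.sum_univ_six, hA, hC'] at hsum
  rw [hC'] at hG
  have p02 : x 0 * x 2 = 0 := by
    have h := hcon 1 3
    rw [f1, f3, g1, g3] at h
    have h' : (C' * (1 + C')) * (x 0 * x 2) = 0 := by linear_combination h + C' * x 0 * x 2 * h2
    exact (mul_eq_zero.1 h').resolve_left (mul_ne_zero hC0 hC1)
  have p03 : x 0 * x 3 = 0 := by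
    have h := hcon 1 2
    rw [f1, f2, g1, g2] at h
    have h' : (C' * (1 + C')) * (x 0 * x 3) = 0 := by linear_combination h + C' * x 0 * x 3 * h2
    exact (mul_eq_zero.1 h').resolve_left (mul_ne_zero hC0 hC1)
  have p04 : x 0 * x 4 = 0 := by
    have h := hcon 1 5
    rw [f1, f5, g1, g5] at h
    have h' : (C' * C') * (x 0 * x 4) = 0 := by linear_combination h
    exact (mul_eq_zero.1 h').resolve_left (mul_ne_zero hC0 hC0)
  have p05 : x 0 * x 5 = 0 := by
    have h := hcon 1 4
    rw [f1, f4, g1, g4] at h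
    have h' : (C' * C') * (x 0 * x 5) = 0 := by linear_combination h
    exact (mul_eq_zero.1 h').resolve_left (mul_ne_zero hC0 hC0)
  have p12 : x 1 * x 2 = 0 := by
    have h := hcon 0 3
    rw [f0, f3, g0, g3] at h
    have h' : (C' * (1 + C')) * (x 1 * x 2) = 0 := by linear_combination h + C' * x 1 * x 2 * h2
    exact (mul_eq_zero.1 h').resolve_left (mul_ne_zero hC0 hC1)
  have p13 : x 1 * x 3 = 0 := by
    have h := hcon 0 2
    rw [f0, f2, g0, g2] at h
    have h' : (C' * (1 + C')) * (x 1 * x 3) = 0 := by linear_combination h + C' * x 1 * x 3 * h2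
    exact (mul_eq_zero.1 h').resolve_left (mul_ne_zero hC0 hC1)
  have p14 : x 1 * x 4 = 0 := by
    have h := hcon 0 5
    rw [f0, f5, g0, g5] at h
    have h' : (C' * C') * (x 1 * x 4) = 0 := by linear_combination h
    exact (mul_eq_zero.1 h').resolve_left (mul_ne_zero hC0 hC0)
  have p15 : x 1 * x 5 = 0 := by
    have h := hcon 0 4
    rw [f0, f4, g0, g4] at h
    have h' : (C' * C') * (x 1 * x 5) = 0 := by linear_combination h
    exact (mul_eq_zero.1 h').resolve_left (mul_ne_zero hC0 hC0)
  have p24 : x 2 * x 4 = 0 := by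
    have h := hcon 3 5
    rw [f3, f5, g3, g5] at h
    have h' : C' * (x 2 * x 4) = 0 := by linear_combination h
    exact (mul_eq_zero.1 h').resolve_left hC0
  have p25 : x 2 * x 5 = 0 := by
    have h := hcon 3 4
    rw [f3, f4, g3, g4] at h
    have h' : C' * (x 2 * x 5) = 0 := by linear_combination h
    exact (mul_eq_zero.1 h').resolve_left hC0
  have p34 : x 3 * x 4 = 0 := by
    have h := hcon 2 5
    rw [f2, f5, g2, g5] at h
    have h' : C' * (x 3 * x 4) = 0 := by linear_combination h
    exact (mul_eq_zero.1 h').resolve_left hC0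
  have p35 : x 3 * x 5 = 0 := by
    have h := hcon 2 4
    rw [f2, f4, g2, g4] at h
    have h' : C' * (x 3 * x 5) = 0 := by linear_combination h
    exact (mul_eq_zero.1 h').resolve_left hC0
  have z0 : x 0 = 0 := by
    by_contra hu
    have q2 : x 2 = 0 := (mul_eq_zero.1 p02).resolve_left hu
    have q3 : x 3 = 0 := (mul_eq_zero.1 p03).resolve_left hu
    have q4 : x 4 = 0 := (mul_eq_zero.1 p04).resolve_left hu
    have q5 : x 5 = 0 := (mul_eq_zero.1 p05).resolve_left hu
    rw [q2, q3, q4, q5] at hsum hG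
    have hp : x 1 = 0 := by
      by_contra hp
      have h3 : (x 0 * x 1) = 0 := by linear_combination hG
      exact (mul_ne_zero hu hp) h3
    rw [hp] at hsum
    have h4 : A 0 * x 0 ^ 2 = 0 := by linear_combination hsum
    exact (mul_ne_zero (hAn 0) (pow_ne_zero 2 hu)) h4
  have z1 : x 1 = 0 := by
    by_contra hu
    have q2 : x 2 = 0 := (mul_eq_zero.1 p12).resolve_left hu
    have q3 : x 3 = 0 := (mul_eq_zero.1 p13).resolve_left hu
    have q4 : x 4 = 0 := (mul_eq_zero.1 p14).resolve_left hu
    have q5 : x 5 = 0 := (mul_eq_zero.1 p15).resolve_left hu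
    rw [q2, q3, q4, q5] at hsum hG
    have hp : x 0 = 0 := by
      by_contra hp
      have h3 : (x 0 * x 1) = 0 := by linear_combination hG
      exact (mul_ne_zero hp hu) h3
    rw [hp] at hsum
    have h4 : A 1 * x 1 ^ 2 = 0 := by linear_combination hsum
    exact (mul_ne_zero (hAn 1) (pow_ne_zero 2 hu)) h4
  have z2 : x 2 = 0 := by
    by_contra hu
    have q0 : x 0 = 0 := (mul_eq_zero.1 p02).resolve_right hu
    have q1 : x 1 = 0 := (mul_eq_zero.1 p12).resolve_right hu
    have q4 : x 4 = 0 := (mul_eq_zero.1 p24).resolve_left hu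
    have q5 : x 5 = 0 := (mul_eq_zero.1 p25).resolve_left hu
    rw [q0, q1, q4, q5] at hsum hG
    have hp : x 3 = 0 := by
      by_contra hp
      have h3 : C' * (x 2 * x 3) = 0 := by linear_combination hG
      exact (mul_ne_zero hC0 (mul_ne_zero hu hp)) h3
    rw [hp] at hsum
    have h4 : A 2 * x 2 ^ 2 = 0 := by linear_combination hsum
    exact (mul_ne_zero (hAn 2) (pow_ne_zero 2 hu)) h4
  have z3 : x 3 = 0 := by
    by_contra hu
    have q0 : x 0 = 0 := (mul_eq_zero.1 p03).resolve_right hu
    have q1 : x 1 = 0 := (mul_eq_zero.1 p13).resolve_right hu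
    have q4 : x 4 = 0 := (mul_eq_zero.1 p34).resolve_left hu
    have q5 : x 5 = 0 := (mul_eq_zero.1 p35).resolve_left hu
    rw [q0, q1, q4, q5] at hsum hG
    have hp : x 2 = 0 := by
      by_contra hp
      have h3 : C' * (x 2 * x 3) = 0 := by linear_combination hG
      exact (mul_ne_zero hC0 (mul_ne_zero hp hu)) h3
    rw [hp] at hsum
    have h4 : A 3 * x 3 ^ 2 = 0 := by linear_combination hsum
    exact (mul_ne_zero (hAn 3) (pow_ne_zero 2 hu)) h4
  have z4 : x 4 = 0 := by
    by_contra hu
    have q0 : x 0 = 0 := (mul_eq_zero.1 p04).resolve_right hu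
    have q1 : x 1 = 0 := (mul_eq_zero.1 p14).resolve_right hu
    have q2 : x 2 = 0 := (mul_eq_zero.1 p24).resolve_right hu
    have q3 : x 3 = 0 := (mul_eq_zero.1 p34).resolve_right hu
    rw [q0, q1, q2, q3] at hsum hG
    have hp : x 5 = 0 := by
      by_contra hp
      have h3 : (1 + C') * (x 4 * x 5) = 0 := by linear_combination hG
      exact (mul_ne_zero hC1 (mul_ne_zero hu hp)) h3
    rw [hp] at hsum
    have h4 : A 4 * x 4 ^ 2 = 0 := by linear_combination hsum
    exact (mul_ne_zero (hAn 4) (pow_ne_zero 2 hu)) h4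
  have z5 : x 5 = 0 := by
    by_contra hu
    have q0 : x 0 = 0 := (mul_eq_zero.1 p05).resolve_right hu
    have q1 : x 1 = 0 := (mul_eq_zero.1 p15).resolve_right hu
    have q2 : x 2 = 0 := (mul_eq_zero.1 p25).resolve_right hu
    have q3 : x 3 = 0 := (mul_eq_zero.1 p35).resolve_right hu
    rw [q0, q1, q2, q3] at hsum hG
    have hp : x 4 = 0 := by
      by_contra hp
      have h3 : (1 + C') * (x 4 * x 5) = 0 := by linear_combination hG
      exact (mul_ne_zero hC1 (mul_ne_zero hp hu)) h3
    rw [hp] at hsum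
    have h4 : A 5 * x 5 ^ 2 = 0 := by linear_combination hsum
    exact (mul_ne_zero (hAn 5) (pow_ne_zero 2 hu)) h4
  apply hx0
  funext i
  fin_cases i
  · exact z0
  · exact z1
  · exact z2
  · exact z3
  · exact z4
  · exact z5

end Pool.Agent.Y161.Cd
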