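import Pool.Agent.Y161.Cd.CI
import Pool.Agent.Helper346.Cd.CJ
import Pool.Agent.Y161.Cd.CK
import Pool.Agent.Y161.Cd.CL
import Pool.Agent.Y161.Cd.CM
import Pool.Agent.Helper346.Cd.CN
import Pool.Agent.Y161.Cd.CO
import Pool.Agent.Y161.Cd.CP
import Pool.Agent.Y161.Cd.Smooth
import Pool.Agent.Y161.Cd.One

set_option autoImplicit false

open MvPolynomial

namespace Pool.Agent.Y161.Cd

open Pool.Agent.Helper346.Cd (IsDiscreteModule HSuccVanishes vanish_torsion_of_finite
  exists_maximal_prime_to)

theorem cdLe_one {k : Type} [Field k] [CharP k 2]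
    (hk : ∀ f : Polynomial k, Irreducible f → f.Separable → ¬ 2 ∣ f.natDegree → f.natDegree = 1) :
    CdLe Gal(SeparableClosure k/k) 1 := by
  have hpro : IsProTwo Gal(SeparableClosure k/k) :=
    isProTwo_gal (fun M _ h => finrank_eq_one_of_prime_to hk M h)
  intro M _ _ hM ht q hq
  exact vanish_torsion_of_finite q (fun M' _ _ _ hM' => vanish_finite hpro M' hM' q hq) M hM ht

theorem anisotropic {κ K Ω : Type} [Field κ] [CharP κ 2] [Field K] [Field Ω]
    [Algebra (Polynomial κ) K] [IsFractionRing (Polynomial κ) K] [Algebra K Ω]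
    [Algebra.IsSeparable K Ω] (E : IntermediateField K Ω)
    (hE : ∀ T : IntermediateField K Ω, T ≤ E → FiniteDimensional K T → ¬ 2 ∣ Module.finrank K T)
    (a : Fin 6 → κ) (ha : ∀ y : Fin 6 → κ, ∑ i, a i * y i ^ 2 = 0 → y = 0)
    (x : Fin 6 → E) (hx : x ≠ 0) :
    ∑ i, algebraMap K E (algebraMap (Polynomial κ) K (Polynomial.C (a i))) * x i ^ 2 +
      algebraMap K E (algebraMap (Polynomial κ) K Polynomial.X) *
        (x 0 * x 1 + x 2 * x 3 + x 4 * x 5) ≠ 0 := by
  intro hx0
  let T : IntermediateField K Ω :=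
    IntermediateField.adjoin K (Set.range fun i => ((x i : E) : Ω))
  have hTE : T ≤ E := by
    refine IntermediateField.adjoin_le_iff.2 ?_
    rintro _ ⟨i, rfl⟩
    exact (x i).2
  have : FiniteDimensional K T := by
    have : Finite (Set.range fun i => ((x i : E) : Ω)) := Set.finite_range _
    refine IntermediateField.finiteDimensional_adjoin ?_
    intro y _
    exact Algebra.IsIntegral.isIntegral y
  have h3 := hE T hTE inferInstance
  let ι : κ →+* T := (algebraMap K T).comp ((algebraMap (Polynomial κ) K).comp Polynomial.C)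
  let c : T := algebraMap K T (algebraMap (Polynomial κ) K Polynomial.X)
  obtain ⟨O, l, _, _, r, _, hr, hι, hc⟩ := exists_good_place (κ := κ) (E := T) K h3 ι c
    (fun a => rfl) rfl
  let y : Fin 6 → T := fun i =>
    ⟨((x i : E) : Ω), IntermediateField.subset_adjoin _ _ ⟨i, rfl⟩⟩
  have hy : y ≠ 0 := by
    intro h
    apply hx
    funext i
    have := congrArg (fun t : T => (t : Ω)) (congrFun h i)
    exact Subtype.ext this
  refine anisotropic_of_place a ha ι c O r hr hι hc y hy ?_
  apply Subtype.ext
  have := congrArg (fun t : E => (t : Ω)) hx0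
  simpa [y, ι, c] using this

theorem main : ∃ (k : Type) (_ : Field k), CharP k 2 ∧ HasCd Gal(SeparableClosure k/k) 1 ∧
    ∃ f g : MvPolynomial (Fin 6) k, f.IsHomogeneous 2 ∧ g.IsHomogeneous 2 ∧
      IsSmoothIntersection f g ∧ ∀ x : Fin 6 → k, eval x f = 0 → eval x g = 0 → x = 0 := by
  let κ := FractionRing (MvPolynomial ℕ (ZMod 2))
  let K0 := FractionRing (Polynomial κ)
  have : CharP κ 2 :=
    charP_of_injective_algebraMap (IsFractionRing.injective (MvPolynomial ℕ (ZMod 2)) κ) 2
  have : CharP K0 2 :=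
    charP_of_injective_algebraMap (IsFractionRing.injective (Polynomial κ) K0) 2
  obtain ⟨E, hE1, hE2⟩ := exists_maximal_prime_to 2 Nat.prime_two K0 (SeparableClosure K0)
  have hcE : CharP E 2 := charP_of_injective_algebraMap (algebraMap K0 E).injective 2
  let a : Fin 6 → κ := fun i => algebraMap (MvPolynomial ℕ (ZMod 2)) κ (X (i : ℕ))
  have ha : ∀ y : Fin 6 → κ, ∑ i, a i * y i ^ 2 = 0 → y = 0 := indep_cubes 5
  let A : Fin 6 → E := fun i => algebraMap K0 E (algebraMap (Polynomial κ) K0 (Polynomial.C (a i)))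
  let c : E := algebraMap K0 E (algebraMap (Polynomial κ) K0 Polynomial.X)
  have hinj : Function.Injective (fun f : Polynomial κ => algebraMap K0 E (algebraMap (Polynomial κ) K0 f)) :=
    (algebraMap K0 E).injective.comp (IsFractionRing.injective (Polynomial κ) K0)
  have hA : ∀ i, A i ≠ 0 := by
    intro i h0
    have h1 : a i ≠ 0 := by
      intro h
      have h2 : (X (i : ℕ) : MvPolynomial ℕ (ZMod 2)) = 0 := by
        apply IsFractionRing.injective (MvPolynomial ℕ (ZMod 2)) κ
        rw [map_zero]
        exact h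
      exact MvPolynomial.X_ne_zero _ h2
    apply h1
    have h2 : Polynomial.C (a i) = 0 := hinj (by
      show algebraMap K0 E (algebraMap (Polynomial κ) K0 (Polynomial.C (a i))) =
        algebraMap K0 E (algebraMap (Polynomial κ) K0 0)
      rw [map_zero, map_zero]
      exact h0)
    exact Polynomial.C_eq_zero.1 h2
  have hc0 : c ≠ 0 := by
    intro h0
    have h2 : (Polynomial.X : Polynomial κ) = 0 := hinj (by
      show algebraMap K0 E (algebraMap (Polynomial κ) K0 Polynomial.X) =
        algebraMap K0 E (algebraMap (Polynomial κ) K0 0)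
      rw [map_zero, map_zero]
      exact h0)
    exact Polynomial.X_ne_zero h2
  have hc1 : 1 + c ≠ 0 := by
    intro h0
    have h2 : (1 + Polynomial.X : Polynomial κ) = 0 := hinj (by
      show algebraMap K0 E (algebraMap (Polynomial κ) K0 (1 + Polynomial.X)) =
        algebraMap K0 E (algebraMap (Polynomial κ) K0 0)
      rw [map_add, map_add, map_one, map_one, map_zero, map_zero]
      exact h0)
    have h3 := congrArg (fun f : Polynomial κ => f.coeff 1) h2
    simp [Polynomial.coeff_one] at h3
  have hani : ∀ x : Fin 6 → E, x ≠ 0 →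
      ∑ i, A i * x i ^ 2 + c * (x 0 * x 1 + x 2 * x 3 + x 4 * x 5) ≠ 0 :=
    fun x hx => anisotropic E hE1 a ha x hx
  refine ⟨E, inferInstance, hcE, ⟨cdLe_one hE2, ?_⟩, formF A c, formG c, formF_homogeneous A c,
    formG_homogeneous c, smooth A c hA hc0 hc1, ?_⟩
  · intro m hm
    rcases Nat.eq_zero_or_pos m with h0 | h0
    · exfalso
      subst h0
      refine not_cdLe_zero (A 0) (A 1) c (hA 0) hc0 (fun t ht => ?_) hm
      apply hani (![t, 1, 0, 0, 0, 0] : Fin 6 → E) (fun h => one_ne_zero (congrFun h 1))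
      simp only [Fin.sum_univ_six]
      simp
      linear_combination ht
    · exact h0
  · intro x hf hg
    by_contra hx
    apply hani x hx
    have := aeval_formF (A := E) A c x
    simp only [Algebra.algebraMap_self, RingHom.id_apply] at this
    rw [← this, ← hf]
    rfl

end Pool.Agent.Y161.Cd
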